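import Mathlib

/-!
Endvertex-reconstruction: two graphs on five vertices with two endvertices each.
-/

namespace Pool.Agent.N703.EV

/-- `v` is an endvertex of `G`: it has exactly one neighbour. -/
def IsEnd {V : Type} (G : SimpleGraph V) (v : V) : Prop := ∃! w, G.Adj v w

/-- `G` has no isolated vertices. -/
def NoIsolated {V : Type} (G : SimpleGraph V) : Prop := ∀ v, ∃ w, G.Adj v w

/-- `G` and `H` have the same endvertex-deck: a bijection between their endvertices matches
isomorphic endvertex-deleted subgraphs. -/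
def SameDeck {V W : Type} (G : SimpleGraph V) (H : SimpleGraph W) : Prop :=
  ∃ σ : {v // IsEnd G v} ≃ {w // IsEnd H w},
    ∀ v : {v // IsEnd G v}, Nonempty
      (G.induce {x | x ≠ v.1} ≃g H.induce {y | y ≠ (σ v).1})

/-- `G` is endvertex-reconstructible among the finite graphs without isolated vertices. -/
def Reconstructible {V : Type} (G : SimpleGraph V) : Prop :=
  ∀ (W : Type) (_ : Fintype W) (H : SimpleGraph W), NoIsolated H → SameDeck G H →
    Nonempty (G ≃g H)

/-- `α` is sufficient: every finite graph `G` without isolated vertices and with at least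
`α |V(G)|` endvertices is endvertex-reconstructible. -/
def Sufficient (α : ℝ) : Prop :=
  ∀ (V : Type) (_ : Fintype V) (_ : Nonempty V) (G : SimpleGraph V), NoIsolated G →
    α * (Fintype.card V : ℝ) ≤ (Nat.card {v // IsEnd G v} : ℝ) → Reconstructible G

/-- Triangle `0 1 2` with the endvertices `3, 4` attached to `0` and `1`. -/
def G1 : SimpleGraph (Fin 5) where
  Adj a b := (a.1, b.1) ∈ ([(0,1),(1,0),(0,2),(2,0),(1,2),(2,1),(0,3),(3,0),(1,4),(4,1)] :
    List (ℕ × ℕ))
  symm := ⟨by decide⟩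
  loopless := ⟨by decide⟩

/-- Triangle `0 1 2` with the endvertices `3, 4` both attached to `0`. -/
def G2 : SimpleGraph (Fin 5) where
  Adj a b := (a.1, b.1) ∈ ([(0,1),(1,0),(0,2),(2,0),(1,2),(2,1),(0,3),(3,0),(0,4),(4,0)] :
    List (ℕ × ℕ))
  symm := ⟨by decide⟩
  loopless := ⟨by decide⟩

instance : DecidableRel G1.Adj := fun a b => by unfold G1; infer_instance
instance : DecidableRel G2.Adj := fun a b => by unfold G2; infer_instance

theorem end1 (v : Fin 5) : IsEnd G1 v ↔ 3 ≤ v.1 := by
  unfold IsEnd ExistsUnique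
  revert v
  decide

theorem end2 (v : Fin 5) : IsEnd G2 v ↔ 3 ≤ v.1 := by
  unfold IsEnd ExistsUnique
  revert v
  decide

theorem noIso1 : NoIsolated G1 := by
  unfold NoIsolated
  decide

theorem noIso2 : NoIsolated G2 := by
  unfold NoIsolated
  decide

theorem not_iso : ¬ Nonempty (G1 ≃g G2) := by
  rintro ⟨f⟩
  -- in `G2` the vertex `0` has four neighbours
  obtain ⟨v, hv⟩ := f.surjective 0
  have h : ∀ w : Fin 5, w ≠ 0 → G2.Adj 0 w := by decide
  have h2 : ∀ w : Fin 5, w ≠ v → G1.Adj v w := by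
    intro w hw
    have h3 : f w ≠ 0 := fun h4 => hw (f.injective (h4.trans hv.symm))
    have h4 := h (f w) h3
    rw [← hv] at h4
    exact f.map_adj_iff.1 h4
  have h3 : ∀ v : Fin 5, ¬ ∀ w : Fin 5, w ≠ v → G1.Adj v w := by decide
  exact h3 v h2

/-- A permutation carrying `v` to `w` and `G` to `H` away from `v` gives an isomorphism of the
vertex-deleted subgraphs. -/
theorem cardIso {V : Type} (G H : SimpleGraph V) (π : Equiv.Perm V) (v w : V) (hv : π v = w)
    (h : ∀ a b, a ≠ v → b ≠ v → (G.Adj a b ↔ H.Adj (π a) (π b))) :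
    Nonempty (G.induce {x | x ≠ v} ≃g H.induce {y | y ≠ w}) := by
  refine ⟨⟨π.subtypeEquiv (fun a => ?_), ?_⟩⟩
  · show a ≠ v ↔ π a ≠ w
    rw [← hv]
    exact (not_congr π.injective.eq_iff).symm
  · rintro ⟨a, ha⟩ ⟨b, hb⟩
    exact (h a b ha hb).symm

theorem sameDeck : SameDeck G1 G2 := by
  refine ⟨(Equiv.refl (Fin 5)).subtypeEquiv (fun a => ?_), ?_⟩
  · show IsEnd G1 a ↔ IsEnd G2 a
    rw [end1, end2]
  · rintro ⟨v, hv⟩
    show Nonempty (G1.induce {x | x ≠ v} ≃g G2.induce {y | y ≠ v})
    have h34 : ∀ v : Fin 5, 3 ≤ v.1 → v = 3 ∨ v = 4 := by decide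
    rcases h34 v ((end1 v).1 hv) with rfl | rfl
    · exact cardIso G1 G2 (Equiv.swap 0 1) 3 3 (by decide) (by decide)
    · exact cardIso G1 G2 (Equiv.refl _) 4 4 rfl (by decide)

theorem card_ends : Nat.card {v // IsEnd G1 v} = 2 := by
  have h : {v | IsEnd G1 v} = {3, 4} := by
    ext v
    show IsEnd G1 v ↔ _
    rw [end1]
    revert v
    decide
  have h2 : Nat.card {v // IsEnd G1 v} = ({v | IsEnd G1 v} : Set (Fin 5)).ncard := rfl
  rw [h2, h, Set.ncard_pair (by decide)]

theorem main (α : ℝ) (h : Sufficient α) : 2 / 5 < α := by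
  by_contra hα
  push Not at hα
  have h1 : Reconstructible G1 := by
    apply h (Fin 5) inferInstance inferInstance G1 noIso1
    rw [card_ends, Fintype.card_fin]
    push_cast
    linarith
  exact not_iso (h1 (Fin 5) inferInstance G2 noIso2 sameDeck)

end Pool.Agent.N703.EV
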